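import Mathlib

/-!
# Shortest intervals with square products: definitions and the pigeonhole lemma
-/

set_option autoImplicit false

namespace Pool.Agent.H68.SQ

open Finset

/-- The largest prime factor of `n` (and `0` for `n ≤ 1`). -/
def P (n : ℕ) : ℕ := n.primeFactors.sup id

/-- `t n` is the least positive integer `t` such that `n * ∏ a ∈ S, a` is a perfect square for some
nonempty subset `S` of `{n + 1, …, n + t}`. -/
noncomputable def t (n : ℕ) : ℕ :=
  sInf {t : ℕ | 0 < t ∧ ∃ S : Finset ℕ, S.Nonempty ∧ S ⊆ Finset.Icc (n + 1) (n + t) ∧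
    IsSquare (n * ∏ a ∈ S, a)}

theorem isSquare_of_even {n : ℕ} (hn : n ≠ 0) (h : ∀ p, Even (n.factorization p)) :
    IsSquare n := by
  refine ⟨∏ p ∈ n.primeFactors, p ^ (n.factorization p / 2), ?_⟩
  rw [← Finset.prod_mul_distrib]
  conv_lhs => rw [← Nat.prod_factorization_pow_eq_self hn]
  unfold Finsupp.prod
  rw [Nat.support_factorization]
  refine Finset.prod_congr rfl fun p _ => ?_
  rw [← pow_add]
  congr 1
  obtain ⟨k, hk⟩ := h p
  omega

theorem even_of_isSquare {n : ℕ} (h : IsSquare n) (p : ℕ) : Even (n.factorization p) := by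
  obtain ⟨r, rfl⟩ := h
  by_cases hr : r = 0
  · simp [hr]
  · rw [Nat.factorization_mul hr hr]
    exact ⟨r.factorization p, rfl⟩

theorem exists_square (Q A : Finset ℕ) (hA : ∀ a ∈ A, a ≠ 0 ∧ a.primeFactors ⊆ Q)
    (hcard : Q.card < A.card) : ∃ R ⊆ A, R.Nonempty ∧ IsSquare (∏ a ∈ R, a) := by
  classical
  set f : Finset ℕ → Finset ℕ := fun R => Q.filter fun q => Odd ((∏ a ∈ R, a).factorization q)
    with hf
  obtain ⟨R1, hR1, R2, hR2, hne, heq⟩ := Finset.exists_ne_map_eq_of_card_lt_of_maps_to
    (s := A.powerset) (t := Q.powerset) (f := f)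
    (by rw [Finset.card_powerset, Finset.card_powerset]; exact Nat.pow_lt_pow_right (by norm_num) hcard)
    (fun R _ => by rw [Finset.mem_coe, Finset.mem_powerset]; exact Finset.filter_subset _ _)
  rw [Finset.mem_powerset] at hR1 hR2
  have hne0 : ∀ R ⊆ A, ∏ a ∈ R, a ≠ 0 := fun R hR =>
    Finset.prod_ne_zero_iff.mpr fun a ha => (hA a (hR ha)).1
  have hQ : ∀ R ⊆ A, ∀ q ∉ Q, (∏ a ∈ R, a).factorization q = 0 := by
    intro R hR q hq
    rw [Nat.factorization_prod fun a ha => (hA a (hR ha)).1, Finsupp.finsetSum_apply]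
    apply Finset.sum_eq_zero
    intro a ha
    rw [← Finsupp.notMem_support_iff, Nat.support_factorization]
    exact fun h => hq ((hA a (hR ha)).2 h)
  have hsub : R1 \ R2 ∪ R2 \ R1 ⊆ A := by
    apply Finset.union_subset
    · exact Finset.sdiff_subset.trans hR1
    · exact Finset.sdiff_subset.trans hR2
  refine ⟨R1 \ R2 ∪ R2 \ R1, hsub, ?_, ?_⟩
  · rw [Finset.nonempty_iff_ne_empty]
    intro h
    rw [Finset.union_eq_empty, Finset.sdiff_eq_empty_iff_subset,
      Finset.sdiff_eq_empty_iff_subset] at h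
    exact hne (Finset.Subset.antisymm h.1 h.2)
  · apply isSquare_of_even (hne0 _ hsub)
    intro q
    have h1 : (∏ a ∈ R1, a) * (∏ a ∈ R2, a) =
        (∏ a ∈ R1 \ R2 ∪ R2 \ R1, a) * ((∏ a ∈ R1 ∩ R2, a) * ∏ a ∈ R1 ∩ R2, a) := by
      have hd : Disjoint (R1 \ R2) (R2 \ R1) := by
        rw [Finset.disjoint_left]
        intro a ha hb
        rw [Finset.mem_sdiff] at ha hb
        exact ha.2 hb.1
      rw [Finset.prod_union hd]
      have e1 : (∏ a ∈ R1, a) = (∏ a ∈ R1 \ R2, a) * ∏ a ∈ R1 ∩ R2, a := by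
        rw [mul_comm]; exact (Finset.prod_inter_mul_prod_sdiff R1 R2 _).symm
      have e2 : (∏ a ∈ R2, a) = (∏ a ∈ R2 \ R1, a) * ∏ a ∈ R1 ∩ R2, a := by
        rw [mul_comm, Finset.inter_comm]; exact (Finset.prod_inter_mul_prod_sdiff R2 R1 _).symm
      rw [e1, e2]
      ring
    have h2 := congrArg (fun n => n.factorization q) h1
    have hi : ∏ a ∈ R1 ∩ R2, a ≠ 0 := hne0 _ (Finset.inter_subset_left.trans hR1)
    rw [Nat.factorization_mul (hne0 _ hR1) (hne0 _ hR2),
      Nat.factorization_mul (hne0 _ hsub) (mul_ne_zero hi hi), Nat.factorization_mul hi hi] at h2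
    simp only [Finsupp.coe_add, Pi.add_apply] at h2
    have h3 : Even ((∏ a ∈ R1, a).factorization q + (∏ a ∈ R2, a).factorization q) := by
      by_cases hq : q ∈ Q
      · have h4 : Odd ((∏ a ∈ R1, a).factorization q) ↔ Odd ((∏ a ∈ R2, a).factorization q) := by
          have := congrArg (fun s => q ∈ s) heq
          simp only [hf, Finset.mem_filter, hq, true_and, eq_iff_iff] at this
          exact this
        rw [Nat.even_add]
        rw [← Nat.not_odd_iff_even, ← Nat.not_odd_iff_even]
        exact not_congr h4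
      · rw [hQ _ hR1 q hq, hQ _ hR2 q hq]
        simp
    rw [h2] at h3
    rw [Nat.even_add] at h3
    exact h3.mpr ⟨_, rfl⟩

/-- A set in which no element can be completed to a square product by later elements is small. -/
theorem card_le_of_no_square (Q B : Finset ℕ) (hB : ∀ a ∈ B, a ≠ 0 ∧ a.primeFactors ⊆ Q)
    (h : ∀ n ∈ B, ∀ S ⊆ B, S.Nonempty → (∀ m ∈ S, n < m) → ¬ IsSquare (n * ∏ a ∈ S, a)) :
    B.card ≤ Q.card + 1 := by
  classical
  have h1 : (B.filter fun a => IsSquare a).card ≤ 1 := by
    rw [Finset.card_le_one]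
    intro a ha b hb
    rw [Finset.mem_filter] at ha hb
    by_contra hab
    rcases lt_or_gt_of_ne hab with hlt | hlt
    · apply h a ha.1 {b} (Finset.singleton_subset_iff.mpr hb.1) (Finset.singleton_nonempty b)
        (fun m hm => by rw [Finset.mem_singleton] at hm; rw [hm]; exact hlt)
      rw [Finset.prod_singleton]
      exact ha.2.mul hb.2
    · apply h b hb.1 {a} (Finset.singleton_subset_iff.mpr ha.1) (Finset.singleton_nonempty a)
        (fun m hm => by rw [Finset.mem_singleton] at hm; rw [hm]; exact hlt)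
      rw [Finset.prod_singleton]
      exact hb.2.mul ha.2
  have h2 : (B.filter fun a => ¬ IsSquare a).card ≤ Q.card := by
    by_contra hcon
    rw [not_le] at hcon
    obtain ⟨R, hR, hRne, hsq⟩ := exists_square Q (B.filter fun a => ¬ IsSquare a)
      (fun a ha => hB a (Finset.mem_filter.mp ha).1) hcon
    set n := R.min' hRne with hn
    have hnR : n ∈ R := Finset.min'_mem R hRne
    have hprod : n * ∏ a ∈ R.erase n, a = ∏ a ∈ R, a := Finset.mul_prod_erase R (fun a => a) hnR
    by_cases he : (R.erase n).Nonempty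
    · apply h n (Finset.mem_filter.mp (hR hnR)).1 (R.erase n)
        (fun a ha => (Finset.mem_filter.mp (hR (Finset.mem_of_mem_erase ha))).1) he
      · intro m hm
        rw [Finset.mem_erase] at hm
        exact lt_of_le_of_ne (Finset.min'_le R m hm.2) (Ne.symm hm.1)
      · rw [hprod]; exact hsq
    · rw [Finset.not_nonempty_iff_eq_empty] at he
      rw [he, Finset.prod_empty, mul_one] at hprod
      rw [← hprod] at hsq
      exact (Finset.mem_filter.mp (hR hnR)).2 hsq
  have h3 := Finset.card_filter_add_card_filter_not (s := B) (fun a => IsSquare a)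
  omega

theorem primeFactors_subset {n y : ℕ} (h : P n < y) : n.primeFactors ⊆ Nat.primesBelow y := by
  intro p hp
  rw [Nat.primesBelow_eq_filter_range, Finset.mem_filter, Finset.mem_range]
  refine ⟨lt_of_le_of_lt ?_ h, Nat.prime_of_mem_primeFactors hp⟩
  exact Finset.le_sup (f := id) hp

theorem not_square_of_lt_t {n T : ℕ} (hT : T < t n) (S : Finset ℕ) (hS : S.Nonempty)
    (hsub : S ⊆ Finset.Icc (n + 1) (n + T)) : ¬ IsSquare (n * ∏ a ∈ S, a) := by
  intro hsq
  have hT0 : 0 < T := by
    obtain ⟨a, ha⟩ := hS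
    have := Finset.mem_Icc.mp (hsub ha)
    omega
  exact Nat.notMem_of_lt_sInf hT ⟨hT0, S, hS, hsub, hsq⟩

/-- The count at one scale. -/
theorem card_scale (x T y : ℕ) (hT : 0 < T) :
    ((Finset.Icc 1 x).filter fun n => T < t n ∧ P n < y).card ≤
      (x / T + 1) * ((Nat.primesBelow y).card + 1) := by
  classical
  have hmaps : ∀ n ∈ (Finset.Icc 1 x).filter (fun n => T < t n ∧ P n < y),
      (n - 1) / T ∈ Finset.range (x / T + 1) := by
    intro n hn
    rw [Finset.mem_filter, Finset.mem_Icc] at hn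
    rw [Finset.mem_range, Nat.lt_succ_iff]
    exact Nat.div_le_div_right (by omega)
  have := Finset.card_le_mul_card_image_of_maps_to hmaps ((Nat.primesBelow y).card + 1) ?_
  · rw [Finset.card_range] at this
    rw [mul_comm]
    exact this
  · intro r _
    apply card_le_of_no_square
    · intro a ha
      rw [Finset.mem_filter, Finset.mem_filter, Finset.mem_Icc] at ha
      exact ⟨by omega, primeFactors_subset ha.1.2.2⟩
    · intro n hn S hS hSne hlt
      rw [Finset.mem_filter, Finset.mem_filter, Finset.mem_Icc] at hn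
      apply not_square_of_lt_t hn.1.2.1 S hSne
      intro m hm
      have hm' := hS hm
      rw [Finset.mem_filter, Finset.mem_filter, Finset.mem_Icc] at hm'
      have hnm := hlt m hm
      rw [Finset.mem_Icc]
      refine ⟨hnm, ?_⟩
      have e1 := Nat.div_add_mod (n - 1) T
      have e2 := Nat.div_add_mod (m - 1) T
      rw [hn.2] at e1
      rw [hm'.2] at e2
      have e3 := Nat.mod_lt (m - 1) hT
      omega

end Pool.Agent.H68.SQ
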