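import Pool.Agent.H68.SQ.Smooth

/-!
# `P n ≤ t n ≤ K * P n` for almost all `n`
-/

set_option autoImplicit false

namespace Pool.Agent.H68.SQ

open Finset Filter

theorem P_le (n : ℕ) : P n ≤ n := by
  apply Finset.sup_le
  intro p hp
  exact Nat.le_of_mem_primeFactors hp

theorem sum_harm (a b : ℕ) (hab : a ≤ b) :
    ∑ j ∈ Finset.Icc a b, 1 / ((j : ℝ) + 1) ≤
      1 / ((a : ℝ) + 1) + Real.log (((b : ℝ) + 1) / ((a : ℝ) + 1)) := by
  induction b, hab using Nat.le_induction with
  | base =>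
    rw [Finset.Icc_self, Finset.sum_singleton, div_self (by positivity), Real.log_one, add_zero]
  | succ b hab ih =>
    rw [Finset.sum_Icc_succ_top (by omega)]
    have ha : (0 : ℝ) < (a : ℝ) + 1 := by positivity
    have hb : (0 : ℝ) < (b : ℝ) + 1 := by positivity
    have hb2 : (0 : ℝ) < (b : ℝ) + 2 := by positivity
    have h1 : 1 / ((b : ℝ) + 2) ≤ Real.log (((b : ℝ) + 2) / ((b : ℝ) + 1)) := by
      have := Real.one_sub_inv_le_log_of_pos (x := ((b : ℝ) + 2) / ((b : ℝ) + 1)) (by positivity)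
      refine le_trans (le_of_eq ?_) this
      field_simp
      ring
    have h2 : Real.log ((((b + 1 : ℕ) : ℝ) + 1) / ((a : ℝ) + 1)) =
        Real.log (((b : ℝ) + 1) / ((a : ℝ) + 1)) + Real.log (((b : ℝ) + 2) / ((b : ℝ) + 1)) := by
      rw [← Real.log_mul (by positivity) (by positivity)]
      congr 1
      push_cast
      field_simp
      ring
    rw [h2]
    have h3 : 1 / (((b + 1 : ℕ) : ℝ) + 1) = 1 / ((b : ℝ) + 2) := by push_cast; ring
    rw [h3]
    linarith

theorem sum_two_pow (l : ℕ) :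
    ∑ j ∈ Finset.range (l + 1), (2 : ℝ) ^ j / ((j : ℝ) + 1) ≤ 4 * (2 ^ l / ((l : ℝ) + 1)) := by
  induction l with
  | zero => norm_num
  | succ l ih =>
    rw [Finset.sum_range_succ]
    rcases Nat.eq_zero_or_pos l with h0 | h0
    · subst h0; norm_num
    · have hl : (1 : ℝ) ≤ l := by exact_mod_cast h0
      have h1 : 4 * ((2 : ℝ) ^ l / ((l : ℝ) + 1)) ≤ 3 * (2 ^ (l + 1) / (((l + 1 : ℕ) : ℝ) + 1)) := by
        push_cast
        rw [pow_succ, ← mul_div_assoc, ← mul_div_assoc, div_le_div_iff₀ (by positivity)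
          (by positivity)]
        have : (0 : ℝ) < 2 ^ l := by positivity
        nlinarith
      linarith

theorem count_bad (K : ℝ) (hK : 2 ≤ K) (x : ℕ) (hx : 2 ≤ x) :
    (((Finset.Icc 1 x).filter fun n => K * P n < t n).card : ℝ) ≤
      96 * (Real.log K / K) * x + (Real.sqrt x + 48 * (x / ((Nat.log 2 x : ℝ) + 1))) := by
  classical
  set l := Nat.log 2 x with hl
  have hl1 : 1 ≤ l := by
    rw [hl]; exact Nat.log_pos (by norm_num) hx
  have hlr : (1 : ℝ) ≤ l := by exact_mod_cast hl1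
  have hx0 : (0 : ℝ) < x := by
    have : 0 < x := by omega
    exact_mod_cast this
  have hK0 : 0 < K := by linarith
  set J := ⌊(l : ℝ) / K⌋₊ with hJ
  have hJ1 : (J : ℝ) ≤ l / K := Nat.floor_le (by positivity)
  have hJ2 : (l : ℝ) / K < J + 1 := Nat.lt_floor_add_one _
  have hJl : J ≤ l := by
    have : (J : ℝ) ≤ l := hJ1.trans (by rw [div_le_iff₀ hK0]; nlinarith)
    exact_mod_cast this
  set T : ℕ → ℕ := fun j => ⌊K * 2 ^ j⌋₊ with hT
  have hTle : ∀ j, (T j : ℝ) ≤ K * 2 ^ j := fun j => Nat.floor_le (by positivity)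
  have hTge : ∀ j, K * 2 ^ j / 2 ≤ (T j : ℝ) := by
    intro j
    have h1 : K * 2 ^ j < (T j : ℝ) + 1 := Nat.lt_floor_add_one _
    have h2 : (1 : ℝ) ≤ 2 ^ j := one_le_pow₀ (by norm_num)
    nlinarith
  have hTpos : ∀ j, 0 < T j := by
    intro j
    have h2 : (1 : ℝ) ≤ 2 ^ j := one_le_pow₀ (by norm_num)
    have : (0 : ℝ) < T j := lt_of_lt_of_le (by positivity) (hTge j)
    exact_mod_cast this
  have hcover : ((Finset.Icc 1 x).filter fun n => K * P n < t n) ⊆
      ((Finset.Icc 1 x).filter fun n => P n < 2 ^ J) ∪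
        (Finset.Icc J l).biUnion fun j =>
          (Finset.Icc 1 x).filter fun n => T j < t n ∧ P n < 2 ^ (j + 1) := by
    intro n hn
    rw [Finset.mem_filter] at hn
    rw [Finset.mem_union]
    by_cases hs : P n < 2 ^ J
    · left; rw [Finset.mem_filter]; exact ⟨hn.1, hs⟩
    · right
      rw [not_lt] at hs
      have hP0 : P n ≠ 0 := by
        have := Nat.one_le_two_pow (n := J)
        omega
      rw [Finset.mem_biUnion]
      refine ⟨Nat.log 2 (P n), ?_, ?_⟩
      · rw [Finset.mem_Icc]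
        refine ⟨Nat.le_log_of_pow_le (by norm_num) hs, ?_⟩
        exact Nat.log_mono_right ((P_le n).trans (Finset.mem_Icc.mp hn.1).2)
      · rw [Finset.mem_filter]
        refine ⟨hn.1, ?_, Nat.lt_pow_succ_log_self (by norm_num) _⟩
        have h1 : 2 ^ (Nat.log 2 (P n)) ≤ P n := Nat.pow_log_le_self 2 hP0
        have h2 : ((2 : ℝ) ^ (Nat.log 2 (P n))) ≤ P n := by exact_mod_cast h1
        have h3 : (T (Nat.log 2 (P n)) : ℝ) < t n :=
          lt_of_le_of_lt ((hTle _).trans (mul_le_mul_of_nonneg_left h2 hK0.le)) hn.2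
        exact_mod_cast h3
  have hcard : (((Finset.Icc 1 x).filter fun n => K * P n < t n).card : ℝ) ≤
      ((Finset.Icc 1 x).filter fun n => P n < 2 ^ J).card +
        ∑ j ∈ Finset.Icc J l,
          (((Finset.Icc 1 x).filter fun n => T j < t n ∧ P n < 2 ^ (j + 1)).card : ℝ) := by
    have h1 := (Finset.card_le_card hcover).trans (Finset.card_union_le _ _)
    have h2 := Finset.card_biUnion_le (s := Finset.Icc J l)
      (t := fun j => (Finset.Icc 1 x).filter fun n => T j < t n ∧ P n < 2 ^ (j + 1))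
    have h3 : ((Finset.Icc 1 x).filter fun n => K * P n < t n).card ≤
      ((Finset.Icc 1 x).filter fun n => P n < 2 ^ J).card +
        ∑ j ∈ Finset.Icc J l,
          ((Finset.Icc 1 x).filter fun n => T j < t n ∧ P n < 2 ^ (j + 1)).card := by omega
    exact_mod_cast h3
  have hlog2 : 0 < Real.log 2 := Real.log_pos (by norm_num)
  have hlogK : Real.log 2 ≤ Real.log K := Real.log_le_log (by norm_num) hK
  have hlog2' := Real.log_two_gt_d9
  -- smooth part
  have hsm : (((Finset.Icc 1 x).filter fun n => P n < 2 ^ J).card : ℝ) ≤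
      Real.sqrt x + 12 * (Real.log K / K) * x := by
    refine (card_smooth x (2 ^ J) hx).trans ?_
    refine add_le_add_right ?_ _
    have h1 : (l : ℝ) * Real.log 2 ≤ Real.log x := by
      rw [← Real.log_pow]
      apply Real.log_le_log (by positivity)
      have : 2 ^ l ≤ x := Nat.pow_log_le_self 2 (by omega)
      exact_mod_cast this
    have h2 : Real.log ((2 ^ J : ℕ) : ℝ) / Real.log x ≤ 1 / K := by
      push_cast
      rw [Real.log_pow, div_le_div_iff₀ (by nlinarith) hK0, one_mul]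
      have h3 : (J : ℝ) * K ≤ l := by rwa [← le_div_iff₀ hK0]
      nlinarith
    have h3 : 8 * (1 / K) ≤ 12 * (Real.log K / K) := by
      rw [← mul_div_assoc, ← mul_div_assoc]
      apply div_le_div_of_nonneg_right _ hK0.le
      nlinarith
    calc 8 * (x : ℝ) * (Real.log ((2 ^ J : ℕ) : ℝ) / Real.log x)
        ≤ 8 * (x : ℝ) * (1 / K) := mul_le_mul_of_nonneg_left h2 (by positivity)
      _ = 8 * (1 / K) * x := by ring
      _ ≤ 12 * (Real.log K / K) * x := mul_le_mul_of_nonneg_right h3 hx0.le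
  -- one scale
  have hscale : ∀ j ∈ Finset.Icc J l,
      (((Finset.Icc 1 x).filter fun n => T j < t n ∧ P n < 2 ^ (j + 1)).card : ℝ) ≤
        24 * x / K * (1 / ((j : ℝ) + 1)) + 12 * (2 ^ j / ((j : ℝ) + 1)) := by
    intro j _
    have h1 := card_scale x (T j) (2 ^ (j + 1)) (hTpos j)
    have h2 : (((Finset.Icc 1 x).filter fun n => T j < t n ∧ P n < 2 ^ (j + 1)).card : ℝ) ≤
        (((x / T j : ℕ) : ℝ) + 1) * (((Nat.primesBelow (2 ^ (j + 1))).card : ℝ) + 1) := by
      exact_mod_cast h1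
    have h3 : ((x / T j : ℕ) : ℝ) ≤ 2 * x / (K * 2 ^ j) := by
      refine Nat.cast_div_le.trans ?_
      have hTp : (0 : ℝ) < T j := by exact_mod_cast hTpos j
      rw [div_le_div_iff₀ hTp (by positivity)]
      have := hTge j
      nlinarith
    have h4 := card_primes j
    calc (((Finset.Icc 1 x).filter fun n => T j < t n ∧ P n < 2 ^ (j + 1)).card : ℝ)
        ≤ _ := h2
      _ ≤ (2 * x / (K * 2 ^ j) + 1) * (12 * (2 ^ j / ((j : ℝ) + 1))) := by
          apply mul_le_mul (by linarith) h4 (by positivity) (by positivity)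
      _ = 24 * x / K * (1 / ((j : ℝ) + 1)) + 12 * (2 ^ j / ((j : ℝ) + 1)) := by
          have : (2 : ℝ) ^ j ≠ 0 := by positivity
          have : (j : ℝ) + 1 ≠ 0 := by positivity
          field_simp
          ring
  have hsum : ∑ j ∈ Finset.Icc J l,
      (((Finset.Icc 1 x).filter fun n => T j < t n ∧ P n < 2 ^ (j + 1)).card : ℝ) ≤
      84 * (Real.log K / K) * x + 48 * (x / ((l : ℝ) + 1)) := by
    refine (Finset.sum_le_sum hscale).trans ?_
    rw [Finset.sum_add_distrib, ← Finset.mul_sum, ← Finset.mul_sum]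
    have h1 : ∑ j ∈ Finset.Icc J l, 1 / ((j : ℝ) + 1) ≤ 7 / 2 * Real.log K := by
      refine (sum_harm J l hJl).trans ?_
      have e1 : 1 / ((J : ℝ) + 1) ≤ 1 := by
        rw [div_le_one (by positivity)]
        have : (0 : ℝ) ≤ J := Nat.cast_nonneg J
        linarith
      have e2 : ((l : ℝ) + 1) / ((J : ℝ) + 1) ≤ 2 * K := by
        rw [div_le_iff₀ (by positivity)]
        have e3 : (l : ℝ) < (J + 1) * K := by rwa [div_lt_iff₀ hK0] at hJ2
        have e4 : (0 : ℝ) ≤ J := Nat.cast_nonneg J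
        nlinarith
      have e5 : Real.log (((l : ℝ) + 1) / ((J : ℝ) + 1)) ≤ Real.log 2 + Real.log K := by
        rw [← Real.log_mul (by norm_num) hK0.ne']
        exact Real.log_le_log (by positivity) e2
      linarith
    have h2 : ∑ j ∈ Finset.Icc J l, (2 : ℝ) ^ j / ((j : ℝ) + 1) ≤ 4 * (x / ((l : ℝ) + 1)) := by
      calc ∑ j ∈ Finset.Icc J l, (2 : ℝ) ^ j / ((j : ℝ) + 1)
          ≤ ∑ j ∈ Finset.range (l + 1), (2 : ℝ) ^ j / ((j : ℝ) + 1) := by
            apply Finset.sum_le_sum_of_subset_of_nonneg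
            · intro j hj
              rw [Finset.mem_Icc] at hj
              rw [Finset.mem_range]; omega
            · intro j _ _; positivity
        _ ≤ 4 * (2 ^ l / ((l : ℝ) + 1)) := sum_two_pow l
        _ ≤ 4 * (x / ((l : ℝ) + 1)) := by
            have : (2 : ℝ) ^ l ≤ x := by
              have : 2 ^ l ≤ x := Nat.pow_log_le_self 2 (by omega)
              exact_mod_cast this
            gcongr
    calc 24 * x / K * ∑ j ∈ Finset.Icc J l, 1 / ((j : ℝ) + 1) +
          12 * ∑ j ∈ Finset.Icc J l, (2 : ℝ) ^ j / ((j : ℝ) + 1)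
        ≤ 24 * x / K * (7 / 2 * Real.log K) + 12 * (4 * (x / ((l : ℝ) + 1))) := by
          gcongr
      _ = _ := by ring
  linarith

theorem eventually_small (c ε : ℝ) (hε : 0 < ε) : ∀ᶠ x : ℕ in atTop,
    Real.sqrt x + c * (x / ((Nat.log 2 x : ℝ) + 1)) ≤ ε * x := by
  have h1 : Tendsto (fun x : ℕ => Real.sqrt x) atTop atTop :=
    Real.tendsto_sqrt_atTop.comp tendsto_natCast_atTop_atTop
  have h2 : Tendsto (fun x : ℕ => (Nat.log 2 x : ℝ)) atTop atTop := by
    apply tendsto_natCast_atTop_atTop.comp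
    rw [tendsto_atTop_atTop]
    intro b
    exact ⟨2 ^ b, fun a ha => Nat.le_log_of_pow_le (by norm_num) ha⟩
  filter_upwards [h1.eventually_ge_atTop (2 / ε), h2.eventually_ge_atTop (2 * |c| / ε),
    eventually_ge_atTop 1] with x hx1 hx2 hx3
  have hx : (0 : ℝ) < x := by exact_mod_cast hx3
  have hs : 0 < Real.sqrt x := Real.sqrt_pos.mpr hx
  have e1 : Real.sqrt x ≤ ε / 2 * x := by
    have : Real.sqrt x * Real.sqrt x = x := Real.mul_self_sqrt hx.le
    rw [div_le_iff₀ hε] at hx1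
    nlinarith
  have e2 : c * (x / ((Nat.log 2 x : ℝ) + 1)) ≤ ε / 2 * x := by
    have hl : (0 : ℝ) < (Nat.log 2 x : ℝ) + 1 := by positivity
    rw [← mul_div_assoc, div_le_iff₀ hl]
    rw [div_le_iff₀ hε] at hx2
    have := le_abs_self c
    nlinarith
  linarith

theorem part_one (K : ℝ) (hK : 2 ≤ K) : ∀ᶠ x : ℕ in atTop,
    (((Finset.Icc 1 x).filter fun n => K * P n < t n).card : ℝ) ≤
      100 * (Real.log K / K) * x := by
  have hK0 : 0 < K := by linarith
  have hlogK : 0 < Real.log K := Real.log_pos (by linarith)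
  filter_upwards [eventually_small 48 (4 * (Real.log K / K)) (by positivity),
    eventually_ge_atTop 2] with x hx1 hx2
  have := count_bad K hK x hx2
  linarith

theorem P_prime {n : ℕ} (h : 0 < P n) : (P n).Prime ∧ P n ∣ n ∧ n ≠ 0 := by
  have hne : n.primeFactors.Nonempty := by
    rw [Finset.nonempty_iff_ne_empty]
    intro he
    unfold P at h
    rw [he] at h
    simp at h
  obtain ⟨p, hp, hpe⟩ := Finset.exists_mem_eq_sup n.primeFactors hne id
  have h1 : P n = p := hpe
  rw [h1]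
  exact ⟨Nat.prime_of_mem_primeFactors hp, Nat.dvd_of_mem_primeFactors hp,
    (Nat.mem_primeFactors.mp hp).2.2⟩

theorem sq_dvd_of_t_lt {n : ℕ} (h : t n < P n) : P n ^ 2 ∣ n := by
  obtain ⟨hp, hdvd, hn⟩ := P_prime (lt_of_le_of_lt (Nat.zero_le _) h)
  by_contra hcon
  have hne : {t : ℕ | 0 < t ∧ ∃ S : Finset ℕ, S.Nonempty ∧ S ⊆ Finset.Icc (n + 1) (n + t) ∧
      IsSquare (n * ∏ a ∈ S, a)}.Nonempty := by
    refine ⟨3 * n, by omega, {4 * n}, Finset.singleton_nonempty _, ?_, ?_⟩
    · rw [Finset.singleton_subset_iff, Finset.mem_Icc]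
      omega
    · rw [Finset.prod_singleton]
      exact ⟨2 * n, by ring⟩
  obtain ⟨_, S, _, hS, hsq⟩ := Nat.sInf_mem hne
  have hS' : S ⊆ Finset.Icc (n + 1) (n + t n) := hS
  have hS0 : ∀ a ∈ S, a ≠ 0 := by
    intro a ha
    have := (Finset.mem_Icc.mp (hS' ha)).1
    omega
  have hev := even_of_isSquare hsq (P n)
  rw [Nat.factorization_mul hn (Finset.prod_ne_zero_iff.mpr hS0), Finsupp.coe_add, Pi.add_apply,
    Nat.factorization_prod hS0, Finsupp.finsetSum_apply] at hev
  have h1 : n.factorization (P n) = 1 := by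
    have h2 : 1 ≤ n.factorization (P n) := by
      rw [← hp.pow_dvd_iff_le_factorization hn, pow_one]; exact hdvd
    have h3 : ¬ 2 ≤ n.factorization (P n) := by
      rw [← hp.pow_dvd_iff_le_factorization hn]; exact hcon
    omega
  have h2 : ∃ a ∈ S, P n ∣ a := by
    by_contra hno
    push Not at hno
    have h3 : ∑ a ∈ S, a.factorization (P n) = 0 :=
      Finset.sum_eq_zero fun a ha => Nat.factorization_eq_zero_of_not_dvd (hno a ha)
    rw [h1, h3] at hev
    exact absurd hev (by decide)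
  obtain ⟨a, ha, hda⟩ := h2
  have ha' := Finset.mem_Icc.mp (hS' ha)
  have h4 : P n ∣ a - n := Nat.dvd_sub hda hdvd
  have h5 := Nat.le_of_dvd (by omega) h4
  omega

theorem count_low (Y x : ℕ) (hY : 1 ≤ Y) (hx : 2 ≤ x) :
    (((Finset.Icc 1 x).filter fun n => t n < P n).card : ℝ) ≤
      Real.sqrt x + 8 * x * (Real.log Y / Real.log x) + 2 / Y * x := by
  classical
  have hcover : ((Finset.Icc 1 x).filter fun n => t n < P n) ⊆
      ((Finset.Icc 1 x).filter fun n => P n < Y) ∪
        (Finset.Ioo (Y - 1) (x + 1)).biUnion fun m =>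
          (Finset.Ioc 0 x).filter fun n => m ^ 2 ∣ n := by
    intro n hn
    rw [Finset.mem_filter] at hn
    rw [Finset.mem_union]
    by_cases hs : P n < Y
    · left; rw [Finset.mem_filter]; exact ⟨hn.1, hs⟩
    · right
      rw [Finset.mem_biUnion]
      have hnI := Finset.mem_Icc.mp hn.1
      refine ⟨P n, ?_, ?_⟩
      · rw [Finset.mem_Ioo]
        have := P_le n
        omega
      · rw [Finset.mem_filter, Finset.mem_Ioc]
        exact ⟨by omega, sq_dvd_of_t_lt hn.2⟩
  have h1 := (Finset.card_le_card hcover).trans (Finset.card_union_le _ _)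
  have h2 := Finset.card_biUnion_le (s := Finset.Ioo (Y - 1) (x + 1))
      (t := fun m => (Finset.Ioc 0 x).filter fun n => m ^ 2 ∣ n)
  have h3 : (((Finset.Icc 1 x).filter fun n => t n < P n).card : ℝ) ≤
      ((Finset.Icc 1 x).filter fun n => P n < Y).card +
        ∑ m ∈ Finset.Ioo (Y - 1) (x + 1),
          (((Finset.Ioc 0 x).filter fun n => m ^ 2 ∣ n).card : ℝ) := by
    have h4 : ((Finset.Icc 1 x).filter fun n => t n < P n).card ≤
      ((Finset.Icc 1 x).filter fun n => P n < Y).card +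
        ∑ m ∈ Finset.Ioo (Y - 1) (x + 1),
          ((Finset.Ioc 0 x).filter fun n => m ^ 2 ∣ n).card := by omega
    exact_mod_cast h4
  have h4 : ∑ m ∈ Finset.Ioo (Y - 1) (x + 1),
      (((Finset.Ioc 0 x).filter fun n => m ^ 2 ∣ n).card : ℝ) ≤ 2 / Y * x := by
    calc ∑ m ∈ Finset.Ioo (Y - 1) (x + 1),
        (((Finset.Ioc 0 x).filter fun n => m ^ 2 ∣ n).card : ℝ)
        ≤ ∑ m ∈ Finset.Ioo (Y - 1) (x + 1), ((m : ℝ) ^ 2)⁻¹ * x := by
          apply Finset.sum_le_sum
          intro m _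
          rw [Nat.Ioc_filter_dvd_card_eq_div]
          refine Nat.cast_div_le.trans (le_of_eq ?_)
          push_cast
          rw [div_eq_mul_inv, mul_comm]
      _ = (∑ m ∈ Finset.Ioo (Y - 1) (x + 1), ((m : ℝ) ^ 2)⁻¹) * x := by rw [Finset.sum_mul]
      _ ≤ 2 / Y * x := by
          apply mul_le_mul_of_nonneg_right _ (Nat.cast_nonneg x)
          have := sum_Ioo_inv_sq_le (α := ℝ) (Y - 1) (x + 1)
          have h5 : (((Y - 1 : ℕ) : ℝ) + 1) = Y := by
            have : ((Y - 1 + 1 : ℕ) : ℝ) = Y := by rw [Nat.sub_add_cancel hY]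
            push_cast at this
            exact this
          rwa [h5] at this
  have h5 := card_smooth x Y hx
  linarith

theorem part_two (ε : ℝ) (hε : 0 < ε) : ∀ᶠ x : ℕ in atTop,
    (((Finset.Icc 1 x).filter fun n => t n < P n).card : ℝ) ≤ ε * x := by
  obtain ⟨Y, hY⟩ := exists_nat_gt (4 / ε)
  have hY0 : (0 : ℝ) < Y := lt_trans (by positivity) hY
  have hY1 : 1 ≤ Y := by
    have : 0 < Y := by exact_mod_cast hY0
    omega
  have h1 : Tendsto (fun x : ℕ => Real.sqrt x) atTop atTop :=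
    Real.tendsto_sqrt_atTop.comp tendsto_natCast_atTop_atTop
  have h2 : Tendsto (fun x : ℕ => Real.log x) atTop atTop :=
    Real.tendsto_log_atTop.comp tendsto_natCast_atTop_atTop
  have hlY : 0 ≤ Real.log Y := Real.log_natCast_nonneg Y
  filter_upwards [h1.eventually_ge_atTop (4 / ε),
    h2.eventually_ge_atTop (32 * (Real.log Y + 1) / ε), eventually_ge_atTop 2] with x hx1 hx2 hx3
  have hx : (0 : ℝ) < x := by
    have : 0 < x := by omega
    exact_mod_cast this
  have hs : 0 < Real.sqrt x := Real.sqrt_pos.mpr hx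
  have e1 : Real.sqrt x ≤ ε / 4 * x := by
    have : Real.sqrt x * Real.sqrt x = x := Real.mul_self_sqrt hx.le
    rw [div_le_iff₀ hε] at hx1
    nlinarith
  have hlx : 0 < Real.log x := lt_of_lt_of_le (by positivity) hx2
  have e2 : 8 * (x : ℝ) * (Real.log Y / Real.log x) ≤ ε / 4 * x := by
    have : Real.log Y / Real.log x ≤ ε / 32 := by
      rw [div_le_iff₀ hlx]
      rw [div_le_iff₀ hε] at hx2
      nlinarith
    nlinarith
  have e3 : 2 / (Y : ℝ) * x ≤ ε / 2 * x := by
    apply mul_le_mul_of_nonneg_right _ hx.le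
    rw [div_le_iff₀ hY0]
    rw [div_lt_iff₀ hε] at hY
    nlinarith
  have := count_low Y x hY1 hx3
  linarith

theorem tendsto_log_div : Tendsto (fun K : ℝ => Real.log K / K) atTop (nhds 0) := by
  have := Real.isLittleO_log_id_atTop
  exact this.tendsto_div_nhds_zero

theorem part_three (ψ : ℕ → ℝ) (hψ : Tendsto ψ atTop atTop) :
    Tendsto (fun x : ℕ => (((Finset.Icc 1 x).filter fun n =>
      (P n : ℝ) ≤ t n ∧ (t n : ℝ) ≤ ψ n * P n).card : ℝ) / x) atTop (nhds 1) := by
  classical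
  rw [Metric.tendsto_atTop]
  intro ε hε
  obtain ⟨K, hK2, hKε⟩ : ∃ K : ℝ, 2 ≤ K ∧ 100 * (Real.log K / K) < ε / 4 := by
    have h1 : Tendsto (fun K : ℝ => 100 * (Real.log K / K)) atTop (nhds 0) := by
      have := tendsto_log_div.const_mul 100
      simpa using this
    obtain ⟨K, hK⟩ := ((h1.eventually_lt_const (show (0 : ℝ) < ε / 4 by positivity)).and
      (eventually_ge_atTop (2 : ℝ))).exists
    exact ⟨K, hK.2, hK.1⟩
  obtain ⟨n0, hn0⟩ := (hψ.eventually_ge_atTop K).exists_forall_of_atTop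
  have hall : ∀ᶠ x : ℕ in atTop, (x : ℝ) * (1 - ε * (3 / 4)) ≤
      (((Finset.Icc 1 x).filter fun n =>
        (P n : ℝ) ≤ t n ∧ (t n : ℝ) ≤ ψ n * P n).card : ℝ) := by
    filter_upwards [part_one K hK2, part_two (ε / 4) (by positivity),
      tendsto_natCast_atTop_atTop.eventually_ge_atTop (4 * (n0 : ℝ) / ε)] with x h1 h2 h3
    have hcover : Finset.Icc 1 x ⊆
        ((Finset.Icc 1 x).filter fun n => (P n : ℝ) ≤ t n ∧ (t n : ℝ) ≤ ψ n * P n) ∪
        (Finset.Icc 1 n0 ∪ (((Finset.Icc 1 x).filter fun n => K * P n < t n) ∪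
        ((Finset.Icc 1 x).filter fun n => t n < P n))) := by
      intro n hn
      simp only [Finset.mem_union, Finset.mem_filter]
      by_cases c1 : n ≤ n0
      · right; left
        rw [Finset.mem_Icc] at hn ⊢
        exact ⟨hn.1, c1⟩
      · by_cases c2 : K * P n < t n
        · right; right; left; exact ⟨hn, c2⟩
        · by_cases c3 : t n < P n
          · right; right; right; exact ⟨hn, c3⟩
          · left
            refine ⟨hn, by exact_mod_cast not_lt.mp c3, (not_lt.mp c2).trans ?_⟩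
            exact mul_le_mul_of_nonneg_right (hn0 n (by omega)) (Nat.cast_nonneg _)
    have h4 := (Finset.card_le_card hcover).trans ((Finset.card_union_le _ _).trans
      (Nat.add_le_add_left ((Finset.card_union_le _ _).trans
        (Nat.add_le_add_left (Finset.card_union_le _ _) _)) _))
    rw [Nat.card_Icc, Nat.card_Icc, Nat.add_sub_cancel, Nat.add_sub_cancel] at h4
    have h5 : (x : ℝ) ≤ (((Finset.Icc 1 x).filter fun n =>
        (P n : ℝ) ≤ t n ∧ (t n : ℝ) ≤ ψ n * P n).card : ℝ) + ((n0 : ℝ) +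
        ((((Finset.Icc 1 x).filter fun n => K * P n < t n).card : ℝ) +
        (((Finset.Icc 1 x).filter fun n => t n < P n).card : ℝ))) := by
      exact_mod_cast h4
    have h6 : (n0 : ℝ) ≤ ε / 4 * x := by
      rw [div_le_iff₀ hε] at h3
      linarith
    have h7 : 100 * (Real.log K / K) * x ≤ ε / 4 * x :=
      mul_le_mul_of_nonneg_right hKε.le (Nat.cast_nonneg x)
    linarith
  obtain ⟨N, hN⟩ := (hall.and (eventually_ge_atTop 1)).exists_forall_of_atTop
  refine ⟨N, fun x hx => ?_⟩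
  obtain ⟨h1, h2⟩ := hN x hx
  have hx0 : (0 : ℝ) < x := by exact_mod_cast h2
  have hle : (((Finset.Icc 1 x).filter fun n =>
        (P n : ℝ) ≤ t n ∧ (t n : ℝ) ≤ ψ n * P n).card : ℝ) ≤ x := by
    have := Finset.card_filter_le (Finset.Icc 1 x)
      (fun n => (P n : ℝ) ≤ t n ∧ (t n : ℝ) ≤ ψ n * P n)
    rw [Nat.card_Icc, Nat.add_sub_cancel] at this
    exact_mod_cast this
  rw [Real.dist_eq, abs_sub_lt_iff]
  constructor
  · have : (((Finset.Icc 1 x).filter fun n =>
        (P n : ℝ) ≤ t n ∧ (t n : ℝ) ≤ ψ n * P n).card : ℝ) / x ≤ 1 := by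
      rw [div_le_one hx0]; exact hle
    linarith
  · have : 1 - ε * (3 / 4) ≤ (((Finset.Icc 1 x).filter fun n =>
        (P n : ℝ) ≤ t n ∧ (t n : ℝ) ≤ ψ n * P n).card : ℝ) / x := by
      rw [le_div_iff₀ hx0]; linarith
    linarith

end Pool.Agent.H68.SQ
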