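import Pool.Agent.H68.SQ.Basic

/-!
# Counting smooth numbers, Chebyshev bound, numbers divisible by the square of the largest prime
-/

set_option autoImplicit false

namespace Pool.Agent.H68.SQ

open Finset

theorem sum_factorization (N p : ℕ) :
    ∑ n ∈ Finset.Icc 1 N, n.factorization p = (N.factorial).factorization p := by
  induction N with
  | zero => simp
  | succ N ih =>
    rw [Finset.sum_Icc_succ_top (by omega), ih, Nat.factorial_succ,
      Nat.factorization_mul (Nat.succ_ne_zero N) (Nat.factorial_ne_zero N), Finsupp.coe_add,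
      Pi.add_apply, add_comm]

/-- `∑ log p / (p - 1)` over the primes below `y` is at most `4 log y`. -/
theorem sum_log_le (y : ℕ) :
    ∑ p ∈ Nat.primesBelow y, Real.log p / ((p : ℝ) - 1) ≤ 4 * Real.log y := by
  rcases Nat.eq_zero_or_pos y with h0 | h0
  · subst h0; simp
  have hy : (0 : ℝ) < y := by exact_mod_cast h0
  have h1 : ∑ p ∈ Nat.primesBelow y, ((y.factorial).factorization p : ℝ) * Real.log p ≤
      y * Real.log y := by
    have e1 : ∑ p ∈ Nat.primesBelow y, ((y.factorial).factorization p : ℝ) * Real.log p ≤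
        Real.log (y.factorial) := by
      have hne : (y.factorial) ≠ 0 := Nat.factorial_ne_zero y
      have e2 : Real.log (y.factorial) =
          ∑ p ∈ (y.factorial).primeFactors, ((y.factorial).factorization p : ℝ) * Real.log p := by
        conv_lhs => rw [← Nat.prod_factorization_pow_eq_self hne]
        unfold Finsupp.prod
        rw [Nat.support_factorization]
        push_cast
        rw [Real.log_prod]
        · exact Finset.sum_congr rfl fun p _ => Real.log_pow _ _
        · intro p hp
          have := (Nat.prime_of_mem_primeFactors hp).pos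
          positivity
      rw [e2]
      apply Finset.sum_le_sum_of_subset_of_nonneg
      · intro p hp
        rw [Nat.primesBelow_eq_filter_range, Finset.mem_filter, Finset.mem_range] at hp
        rw [Nat.mem_primeFactors]
        exact ⟨hp.2, hp.2.dvd_factorial.mpr hp.1.le, hne⟩
      · intro p _ _
        exact mul_nonneg (Nat.cast_nonneg _) (Real.log_natCast_nonneg p)
    refine e1.trans ?_
    have e3 : ((y.factorial : ℕ) : ℝ) ≤ (y : ℝ) ^ y := by exact_mod_cast Nat.factorial_le_pow y
    calc Real.log (y.factorial) ≤ Real.log ((y : ℝ) ^ y) :=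
          Real.log_le_log (by exact_mod_cast Nat.factorial_pos y) e3
      _ = y * Real.log y := Real.log_pow _ _
  have h2 : ∀ p ∈ Nat.primesBelow y, (y : ℝ) / 4 * (Real.log p / ((p : ℝ) - 1)) ≤
      ((y.factorial).factorization p : ℝ) * Real.log p := by
    intro p hp
    rw [Nat.primesBelow_eq_filter_range, Finset.mem_filter, Finset.mem_range] at hp
    have hp2 : 2 ≤ p := hp.2.two_le
    have hlog : 0 ≤ Real.log p := Real.log_natCast_nonneg p
    have h3 : y / p ≤ (y.factorial).factorization p := by
      rw [Nat.factorization_factorial hp.2 (Nat.lt_succ_self _)]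
      have : 1 ∈ Finset.Ico 1 (Nat.log p y).succ := by
        rw [Finset.mem_Ico]
        refine ⟨le_refl 1, Nat.succ_lt_succ (Nat.log_pos hp.2.one_lt hp.1.le)⟩
      calc y / p = y / p ^ 1 := by rw [pow_one]
        _ ≤ _ := Finset.single_le_sum (f := fun i => y / p ^ i) (fun _ _ => Nat.zero_le _) this
    have h4 : (y : ℝ) / 4 * (1 / ((p : ℝ) - 1)) ≤ ((y / p : ℕ) : ℝ) := by
      have hpr : (2 : ℝ) ≤ p := by exact_mod_cast hp2
      have e1 : (y : ℝ) < p * ((y / p : ℕ) : ℝ) + p := by
        have := Nat.div_add_mod y p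
        have h5 := Nat.mod_lt y (show 0 < p by omega)
        have h6 : y < p * (y / p) + p := by omega
        exact_mod_cast h6
      have e2 : (1 : ℝ) ≤ ((y / p : ℕ) : ℝ) := by
        have : 1 ≤ y / p := (Nat.one_le_div_iff (by omega)).mpr hp.1.le
        exact_mod_cast this
      rw [mul_one_div, div_le_iff₀ (by linarith)]
      nlinarith
    calc (y : ℝ) / 4 * (Real.log p / ((p : ℝ) - 1))
        = ((y : ℝ) / 4 * (1 / ((p : ℝ) - 1))) * Real.log p := by ring
      _ ≤ ((y / p : ℕ) : ℝ) * Real.log p := mul_le_mul_of_nonneg_right h4 hlog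
      _ ≤ _ := mul_le_mul_of_nonneg_right (by exact_mod_cast h3) hlog
  have h3 : (y : ℝ) / 4 * ∑ p ∈ Nat.primesBelow y, Real.log p / ((p : ℝ) - 1) ≤
      y * Real.log y := by
    rw [Finset.mul_sum]
    exact (Finset.sum_le_sum h2).trans h1
  have h4 : (y : ℝ) * (∑ p ∈ Nat.primesBelow y, Real.log p / ((p : ℝ) - 1)) ≤
      y * (4 * Real.log y) := by linarith
  exact le_of_mul_le_mul_left h4 hy

/-- The number of `n ≤ N` whose largest prime factor is below `y`. -/
theorem card_smooth (N y : ℕ) (hN : 2 ≤ N) :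
    (((Finset.Icc 1 N).filter fun n => P n < y).card : ℝ) ≤
      Real.sqrt N + 8 * N * (Real.log y / Real.log N) := by
  classical
  have hNr : (2 : ℝ) ≤ N := by exact_mod_cast hN
  have hlogN : 0 < Real.log N := Real.log_pos (by linarith)
  have hsplit : ((Finset.Icc 1 N).filter fun n => P n < y) ⊆
      (Finset.Icc 1 ⌊Real.sqrt N⌋₊) ∪
        (Finset.Icc 1 N).filter (fun n => P n < y ∧ Real.sqrt N < n) := by
    intro n hn
    rw [Finset.mem_filter, Finset.mem_Icc] at hn
    rw [Finset.mem_union]
    by_cases h : Real.sqrt N < n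
    · right; rw [Finset.mem_filter, Finset.mem_Icc]; exact ⟨hn.1, hn.2, h⟩
    · left
      rw [Finset.mem_Icc]
      exact ⟨hn.1.1, Nat.le_floor (not_lt.mp h)⟩
  have h1 : (((Finset.Icc 1 N).filter fun n => P n < y).card : ℝ) ≤ Real.sqrt N +
      ((Finset.Icc 1 N).filter (fun n => P n < y ∧ Real.sqrt N < n)).card := by
    have e1 := (Finset.card_le_card hsplit).trans (Finset.card_union_le _ _)
    rw [Nat.card_Icc, Nat.add_sub_cancel] at e1
    have e2 : (⌊Real.sqrt N⌋₊ : ℝ) ≤ Real.sqrt N := Nat.floor_le (Real.sqrt_nonneg _)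
    have e3 : (((Finset.Icc 1 N).filter fun n => P n < y).card : ℝ) ≤ (⌊Real.sqrt N⌋₊ : ℝ) +
      ((Finset.Icc 1 N).filter (fun n => P n < y ∧ Real.sqrt N < n)).card := by
      exact_mod_cast e1
    linarith
  refine h1.trans ?_
  refine add_le_add_right ?_ _
  -- the main part
  set G := (Finset.Icc 1 N).filter (fun n => P n < y ∧ Real.sqrt N < n) with hG
  have h2 : (G.card : ℝ) * (Real.log N / 2) ≤
      ∑ n ∈ Finset.Icc 1 N, ∑ p ∈ Nat.primesBelow y, (n.factorization p : ℝ) * Real.log p := by
    calc (G.card : ℝ) * (Real.log N / 2) = ∑ _n ∈ G, Real.log N / 2 := by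
          rw [Finset.sum_const, nsmul_eq_mul]
      _ ≤ ∑ n ∈ G, ∑ p ∈ Nat.primesBelow y, (n.factorization p : ℝ) * Real.log p := by
          apply Finset.sum_le_sum
          intro n hn
          rw [hG, Finset.mem_filter, Finset.mem_Icc] at hn
          have hn0 : n ≠ 0 := by omega
          have e1 : Real.log N / 2 ≤ Real.log n := by
            rw [← Real.log_sqrt (by linarith)]
            exact Real.log_le_log (Real.sqrt_pos.mpr (by linarith)) hn.2.2.le
          have e2 : Real.log n = ∑ p ∈ n.primeFactors, (n.factorization p : ℝ) * Real.log p := by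
            conv_lhs => rw [← Nat.prod_factorization_pow_eq_self hn0]
            unfold Finsupp.prod
            rw [Nat.support_factorization]
            push_cast
            rw [Real.log_prod]
            · exact Finset.sum_congr rfl fun p _ => Real.log_pow _ _
            · intro p hp
              have := (Nat.prime_of_mem_primeFactors hp).pos
              positivity
          refine e1.trans ?_
          rw [e2]
          apply Finset.sum_le_sum_of_subset_of_nonneg (primeFactors_subset hn.2.1)
          intro p _ _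
          exact mul_nonneg (Nat.cast_nonneg _) (Real.log_natCast_nonneg p)
      _ ≤ _ := by
          apply Finset.sum_le_sum_of_subset_of_nonneg (Finset.filter_subset _ _)
          intro n _ _
          apply Finset.sum_nonneg
          intro p _
          exact mul_nonneg (Nat.cast_nonneg _) (Real.log_natCast_nonneg p)
  have h3 : ∑ n ∈ Finset.Icc 1 N, ∑ p ∈ Nat.primesBelow y,
      (n.factorization p : ℝ) * Real.log p ≤ N * (4 * Real.log y) := by
    rw [Finset.sum_comm]
    calc ∑ p ∈ Nat.primesBelow y, ∑ n ∈ Finset.Icc 1 N, (n.factorization p : ℝ) * Real.log p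
        = ∑ p ∈ Nat.primesBelow y, ((N.factorial).factorization p : ℝ) * Real.log p := by
          refine Finset.sum_congr rfl fun p _ => ?_
          rw [← Finset.sum_mul, ← sum_factorization]
          push_cast
          rfl
      _ ≤ ∑ p ∈ Nat.primesBelow y, (N : ℝ) * (Real.log p / ((p : ℝ) - 1)) := by
          apply Finset.sum_le_sum
          intro p hp
          rw [Nat.primesBelow_eq_filter_range, Finset.mem_filter] at hp
          have hp2 : (2 : ℝ) ≤ p := by exact_mod_cast hp.2.two_le
          have e1 : ((N.factorial).factorization p : ℝ) ≤ N / ((p : ℝ) - 1) := by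
            have e2 := Nat.factorization_factorial_le_div_pred hp.2 N
            have e3 : (((N / (p - 1) : ℕ)) : ℝ) ≤ (N : ℝ) / ((p - 1 : ℕ) : ℝ) := Nat.cast_div_le
            have e4 : ((p - 1 : ℕ) : ℝ) = (p : ℝ) - 1 := by
              have := hp.2.one_le
              push_cast [Nat.cast_sub this]
              ring
            rw [e4] at e3
            exact le_trans (by exact_mod_cast e2) e3
          calc ((N.factorial).factorization p : ℝ) * Real.log p
              ≤ N / ((p : ℝ) - 1) * Real.log p :=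
                mul_le_mul_of_nonneg_right e1 (Real.log_natCast_nonneg p)
            _ = _ := by ring
      _ = (N : ℝ) * ∑ p ∈ Nat.primesBelow y, Real.log p / ((p : ℝ) - 1) := by
          rw [Finset.mul_sum]
      _ ≤ N * (4 * Real.log y) := mul_le_mul_of_nonneg_left (sum_log_le y) (Nat.cast_nonneg N)
  have h4 : (G.card : ℝ) * (Real.log N / 2) ≤ N * (4 * Real.log y) := h2.trans h3
  rw [← mul_div_assoc, le_div_iff₀ hlogN]
  linarith

theorem sq_le_pow (j : ℕ) : (j + 1) ^ 2 * 2 ≤ 9 * 2 ^ j := by
  induction j with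
  | zero => norm_num
  | succ n ih =>
    rcases Nat.lt_or_ge n 2 with h | h
    · interval_cases n <;> norm_num
    · rw [pow_succ 2 n]
      nlinarith

/-- The number of primes below `2^(j+1)`. -/
theorem card_primes (j : ℕ) :
    ((Nat.primesBelow (2 ^ (j + 1))).card : ℝ) + 1 ≤ 12 * (2 ^ j / ((j : ℝ) + 1)) := by
  have hx : (1 : ℝ) < ((2 ^ (j + 1) : ℕ) : ℝ) := by
    have : 1 < 2 ^ (j + 1) := Nat.one_lt_two_pow (by omega)
    exact_mod_cast this
  have h1 := Chebyshev.pi_le_log4_mul_div hx
  rw [Nat.floor_natCast] at h1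
  have h2 : ((Nat.primesBelow (2 ^ (j + 1))).card : ℝ) ≤ (Nat.primeCounting (2 ^ (j + 1)) : ℝ) := by
    rw [Nat.primesBelow_card_eq_primeCounting']
    have : Nat.primeCounting' (2 ^ (j + 1)) ≤ Nat.primeCounting (2 ^ (j + 1)) :=
      Nat.monotone_primeCounting' (Nat.le_succ _)
    exact_mod_cast this
  have hj : (0 : ℝ) < (j : ℝ) + 1 := by positivity
  have hlog2 : 0 < Real.log 2 := Real.log_pos (by norm_num)
  have h3 : Real.log 4 * ((2 ^ (j + 1) : ℕ) : ℝ) / Real.log (Real.sqrt ((2 ^ (j + 1) : ℕ) : ℝ)) =
      8 * (2 ^ j / ((j : ℝ) + 1)) := by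
    rw [Real.log_sqrt (by linarith)]
    push_cast
    rw [Real.log_pow, show (4 : ℝ) = 2 ^ 2 by norm_num, Real.log_pow]
    push_cast
    field_simp
    ring
  have h4 : ((j : ℝ) + 1) ^ 2 * 2 ≤ 9 * 2 ^ j := by exact_mod_cast sq_le_pow j
  have h5 : Real.sqrt ((2 ^ (j + 1) : ℕ) : ℝ) ≤ 3 * (2 ^ j / ((j : ℝ) + 1)) := by
    rw [Real.sqrt_le_left (by positivity)]
    push_cast
    rw [mul_pow, div_pow, ← mul_div_assoc, le_div_iff₀ (by positivity)]
    have : (0 : ℝ) < 2 ^ j := by positivity
    calc (2 : ℝ) ^ (j + 1) * ((j : ℝ) + 1) ^ 2 = 2 ^ j * (((j : ℝ) + 1) ^ 2 * 2) := by ring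
      _ ≤ 2 ^ j * (9 * 2 ^ j) := mul_le_mul_of_nonneg_left h4 this.le
      _ = 3 ^ 2 * (2 ^ j) ^ 2 := by ring
  have h6 : (1 : ℝ) ≤ 2 ^ j / ((j : ℝ) + 1) := by
    rw [le_div_iff₀ hj, one_mul]
    have : j + 1 ≤ 2 ^ j := Nat.lt_two_pow_self
    exact_mod_cast this
  rw [h3] at h1
  linarith

end Pool.Agent.H68.SQ
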